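import Pool.Agent.Y245.SC.Stm

/-!
The uniform local extension gives a larger disc (helper903, project SC of helper245): patching in
the plane of `w`.
-/

set_option autoImplicit false

open Complex MeasureTheory Metric Set Filter Topology ComplexConjugate
open Pool.Agent.Y245.SC

namespace Pool.Agent.Y903.SC

theorem eqOn_conv {f g : ℂ → ℂ} {U : Set ℂ} (hU : IsOpen U) (hc : Convex ℝ U)
    (hf : DifferentiableOn ℂ f U) (hg : DifferentiableOn ℂ g U) {z : ℂ} (hz : z ∈ U)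
    (h : f =ᶠ[𝓝 z] g) : EqOn f g U :=
  (hf.analyticOnNhd hU).eqOn_of_preconnected_of_eventuallyEq (hg.analyticOnNhd hU)
    hc.isPreconnected hz h

/-- local extensions in the plane of `w` -/
theorem local_ext {φ : ℂ → ℂ} {ℓ ρ C : ℝ} (hρ : 0 < ρ) (h : LocExt ℓ ρ C φ) {w1 : ℂ}
    (h1 : Real.exp (ℓ - ρ / 4) < ‖w1‖) (h2 : ‖w1‖ < Real.exp ℓ) :
    ∃ f : ℂ → ℂ, DifferentiableOn ℂ f
      (ball w1 (min (1 / 2) (ρ / 2) * Real.exp (ℓ - ρ / 4))) ∧ f =ᶠ[𝓝 w1] φ := by
  have hn : 0 < ‖w1‖ := (Real.exp_pos _).trans h1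
  have hw1 : w1 ≠ 0 := norm_pos_iff.1 hn
  obtain ⟨ω1, hω1⟩ : ∃ ω1 : ℂ, ω1 = -(conj (Complex.log w1)) := ⟨_, rfl⟩
  have hre : ω1.re = -Real.log ‖w1‖ := by
    rw [hω1, neg_re, conj_re, Complex.log_re]
  have him : ω1.im = arg w1 := by
    rw [hω1, neg_im, conj_im, Complex.log_im, neg_neg]
  have hlog1 : ℓ - ρ / 4 < Real.log ‖w1‖ := by
    have := Real.log_lt_log (Real.exp_pos _) h1
    rwa [Real.log_exp] at this
  have hlog2 : Real.log ‖w1‖ < ℓ := by
    have := Real.log_lt_log hn h2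
    rwa [Real.log_exp] at this
  obtain ⟨F', hF, -, hF2⟩ := h ω1 (by rw [hre]; linarith) (by rw [hre]; linarith)
    (by rw [him]; exact Complex.abs_arg_le_pi w1)
  have hc0 : 0 < min (1 / 2 : ℝ) (ρ / 2) := lt_min (by norm_num) (by linarith)
  -- the branch of the logarithm
  obtain ⟨L, hL⟩ : ∃ L : ℂ → ℂ, L = fun w => Complex.log w1 + Complex.log (w / w1) := ⟨_, rfl⟩
  have hL1 : L w1 = Complex.log w1 := by
    rw [hL]
    simp only [div_self hw1, Complex.log_one, add_zero]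
  have hsmall : ∀ w ∈ ball w1 (min (1 / 2) (ρ / 2) * Real.exp (ℓ - ρ / 4)),
      ‖w / w1 - 1‖ < min (1 / 2) (ρ / 2) := by
    intro w hw
    have e1 : w / w1 - 1 = (w - w1) / w1 := by field_simp
    rw [e1, norm_div, div_lt_iff₀ hn]
    rw [mem_ball, dist_eq_norm] at hw
    exact hw.trans (mul_lt_mul_of_pos_left h1 hc0)
  have hslit : ∀ w ∈ ball w1 (min (1 / 2) (ρ / 2) * Real.exp (ℓ - ρ / 4)),
      w / w1 ∈ slitPlane := by
    intro w hw
    have e1 := (hsmall w hw).trans_le (min_le_left _ _)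
    have e2 := mem_slitPlane_of_norm_lt_one (z := w / w1 - 1) (by linarith)
    rwa [add_sub_cancel] at e2
  have hLd : ∀ w ∈ ball w1 (min (1 / 2) (ρ / 2) * Real.exp (ℓ - ρ / 4)),
      DifferentiableAt ℂ L w := by
    intro w hw
    rw [hL]
    exact (differentiableAt_const _).add
      (DifferentiableAt.clog (differentiableAt_id.div_const w1) (hslit w hw))
  have hLb : ∀ w ∈ ball w1 (min (1 / 2) (ρ / 2) * Real.exp (ℓ - ρ / 4)),
      -(conj (L w)) ∈ ball ω1 ρ := by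
    intro w hw
    have e1 := hsmall w hw
    have e2 := Complex.norm_log_one_add_half_le_self (z := w / w1 - 1)
      (e1.trans_le (min_le_left _ _)).le
    rw [add_sub_cancel] at e2
    have e3 := e1.trans_le (min_le_right _ _)
    rw [mem_ball, dist_eq_norm, hω1]
    have e4 : -(conj (L w)) - -(conj (Complex.log w1)) = -(conj (Complex.log (w / w1))) := by
      rw [hL]
      simp only [map_add]
      ring
    rw [e4, norm_neg, Complex.norm_conj]
    linarith
  have hball : w1 ∈ ball w1 (min (1 / 2) (ρ / 2) * Real.exp (ℓ - ρ / 4)) :=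
    mem_ball_self (mul_pos hc0 (Real.exp_pos _))
  refine ⟨fun w => conj (F' (-(conj (L w)))), ?_, ?_⟩
  · intro w hw
    have hd : DifferentiableAt ℂ F' (-(conj (L w))) :=
      hF.differentiableAt (isOpen_ball.mem_nhds (hLb w hw))
    have hd1 : DifferentiableAt ℂ (fun ζ : ℂ => F' (-ζ)) (conj (L w)) :=
      DifferentiableAt.comp (conj (L w)) hd differentiableAt_id.neg
    have hd2 := hd1.conj_conj
    rw [Complex.conj_conj] at hd2
    exact (DifferentiableAt.comp w hd2 (hLd w hw)).differentiableWithinAt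
  · have hcont : Tendsto (fun w => -(conj (L w))) (𝓝 w1) (𝓝 ω1) := by
      have hc : ContinuousAt (fun w => -(conj (L w))) w1 :=
        (Complex.continuous_conj.continuousAt.comp (hLd w1 hball).continuousAt).neg
      have hc' : Tendsto (fun w => -(conj (L w))) (𝓝 w1) (𝓝 (-(conj (L w1)))) := hc
      rw [hL1, ← hω1] at hc'
      exact hc'
    filter_upwards [hcont.eventually hF2, isOpen_ne.mem_nhds hw1] with w hw hw0
    rw [hw]
    unfold Fc
    have e1 : exp (L w) = w := by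
      rw [hL]
      simp only
      rw [Complex.exp_add, Complex.exp_log hw1, Complex.exp_log (div_ne_zero hw0 hw1)]
      field_simp
    rw [map_neg, Complex.conj_conj, neg_neg, Complex.conj_conj, e1]

theorem coef : S_COEF := by
  intro φ ℓ ρ C hℓ hρ hφ h
  obtain ⟨R, hR⟩ : ∃ R : ℝ, R = Real.exp ℓ := ⟨_, rfl⟩
  obtain ⟨Q, hQ⟩ : ∃ Q : ℝ, Q = Real.exp (ℓ - ρ / 4) := ⟨_, rfl⟩
  obtain ⟨r0, hr0⟩ : ∃ r0 : ℝ, r0 = min (1 / 2) (ρ / 2) * Real.exp (ℓ - ρ / 4) := ⟨_, rfl⟩
  have hRpos : 0 < R := by rw [hR]; exact Real.exp_pos _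
  have hQR : Q < R := by rw [hR, hQ]; exact Real.exp_lt_exp.2 (by linarith)
  have hQpos : 0 < Q := by rw [hQ]; exact Real.exp_pos _
  have hr0pos : 0 < r0 := by
    rw [hr0]
    exact mul_pos (lt_min (by norm_num) (by linarith)) (Real.exp_pos _)
  rw [← hR] at hφ
  rw [← hR]
  -- the circle of centres
  obtain ⟨R0, h01, h02, h03⟩ : ∃ R0 : ℝ, Q < R0 ∧ R0 < R ∧ R < R0 + r0 := by
    refine ⟨(max Q (R - r0) + R) / 2, ?_, ?_, ?_⟩
    · have := le_max_left Q (R - r0)
      linarith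
    · have : max Q (R - r0) < R := max_lt hQR (by linarith)
      linarith
    · have := le_max_right Q (R - r0)
      linarith
  have hR0 : 0 < R0 := hQpos.trans h01
  have hex : ∀ w1 : ℂ, ∃ f : ℂ → ℂ, ‖w1‖ = R0 →
      DifferentiableOn ℂ f (ball w1 r0) ∧ f =ᶠ[𝓝 w1] φ := by
    intro w1
    by_cases hw : ‖w1‖ = R0
    · obtain ⟨f, hf⟩ := local_ext hρ h (w1 := w1) (by rw [hw, ← hQ]; exact h01)
        (by rw [hw, ← hR]; exact h02)
      rw [← hr0] at hf
      exact ⟨f, fun _ => hf⟩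
    · exact ⟨0, fun h => absurd h hw⟩
  choose f hf using hex
  -- agreement with `φ`
  have hfφ : ∀ w1 : ℂ, ‖w1‖ = R0 → EqOn (f w1) φ (ball w1 r0 ∩ ball 0 R) := by
    intro w1 hw
    obtain ⟨g1, g2⟩ := hf w1 hw
    refine eqOn_conv (isOpen_ball.inter isOpen_ball)
      ((convex_ball w1 r0).inter (convex_ball 0 R)) (g1.mono inter_subset_left)
      (hφ.mono inter_subset_right) (z := w1) ⟨mem_ball_self hr0pos, ?_⟩ g2
    rw [mem_ball_zero_iff, hw]
    exact h02
  -- agreement with each other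
  have hff : ∀ w1 w2 : ℂ, ‖w1‖ = R0 → ‖w2‖ = R0 →
      EqOn (f w1) (f w2) (ball w1 r0 ∩ ball w2 r0) := by
    intro w1 w2 hw1 hw2 w hw
    obtain ⟨g1, -⟩ := hf w1 hw1
    obtain ⟨g2, -⟩ := hf w2 hw2
    have hd : dist w1 w2 < 2 * r0 := by
      have e1 : dist w w1 < r0 := hw.1
      have e2 : dist w w2 < r0 := hw.2
      have e3 := dist_triangle_left w1 w2 w
      linarith
    obtain ⟨m, hm⟩ : ∃ m : ℂ, m = (w1 + w2) / 2 := ⟨_, rfl⟩
    have hm1 : m ∈ ball w1 r0 := by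
      rw [mem_ball, dist_eq_norm]
      have : m - w1 = (w2 - w1) / 2 := by rw [hm]; ring
      rw [this, norm_div, Complex.norm_ofNat]
      rw [dist_comm, dist_eq_norm] at hd
      linarith
    have hm2 : m ∈ ball w2 r0 := by
      rw [mem_ball, dist_eq_norm]
      have : m - w2 = (w1 - w2) / 2 := by rw [hm]; ring
      rw [this, norm_div, Complex.norm_ofNat]
      rw [dist_eq_norm] at hd
      linarith
    have hm3 : m ∈ ball (0 : ℂ) R := by
      rw [mem_ball_zero_iff, hm, norm_div, Complex.norm_ofNat]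
      have := norm_add_le w1 w2
      linarith
    refine eqOn_conv (isOpen_ball.inter isOpen_ball)
      ((convex_ball w1 r0).inter (convex_ball w2 r0)) (g1.mono inter_subset_left)
      (g2.mono inter_subset_right) (z := m) ⟨hm1, hm2⟩ ?_ hw
    have hnb : (ball w1 r0 ∩ ball w2 r0) ∩ ball (0 : ℂ) R ∈ 𝓝 m :=
      ((isOpen_ball.inter isOpen_ball).inter isOpen_ball).mem_nhds ⟨⟨hm1, hm2⟩, hm3⟩
    filter_upwards [hnb] with x hx
    rw [hfφ w1 hw1 ⟨hx.1.1, hx.2⟩, hfφ w2 hw2 ⟨hx.1.2, hx.2⟩]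
  -- the centre belonging to a point
  obtain ⟨p, hp⟩ : ∃ p : ℂ → ℂ, p = fun w => ((R0 / ‖w‖ : ℝ) : ℂ) * w := ⟨_, rfl⟩
  have hpn : ∀ w : ℂ, w ≠ 0 → ‖p w‖ = R0 := by
    intro w hw
    have hwn : ‖w‖ ≠ 0 := norm_ne_zero_iff.2 hw
    rw [hp]
    simp only
    rw [norm_mul, Complex.norm_real, Real.norm_eq_abs, abs_of_nonneg (by positivity)]
    field_simp
  have hpb : ∀ w : ℂ, R ≤ ‖w‖ → ‖w‖ < R0 + r0 → w ∈ ball (p w) r0 := by
    intro w hw1 hw2
    have hwn : 0 < ‖w‖ := hRpos.trans_le hw1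
    rw [mem_ball, dist_eq_norm, hp]
    have e1 : w - ((R0 / ‖w‖ : ℝ) : ℂ) * w = ((1 - R0 / ‖w‖ : ℝ) : ℂ) * w := by
      push_cast; ring
    have e2 : 0 ≤ 1 - R0 / ‖w‖ := by
      rw [sub_nonneg, div_le_one hwn]
      linarith
    simp only
    rw [e1, norm_mul, Complex.norm_real, Real.norm_eq_abs, abs_of_nonneg e2, sub_mul, one_mul,
      div_mul_cancel₀ _ hwn.ne']
    linarith
  classical
  refine ⟨R0 + r0, fun w => if ‖w‖ < R then φ w else f (p w) w, h03, ?_, ?_⟩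
  · intro w0 hw0
    rw [mem_ball_zero_iff] at hw0
    by_cases hlt : ‖w0‖ < R
    · have hmem : w0 ∈ ball (0 : ℂ) R := mem_ball_zero_iff.2 hlt
      have hd : DifferentiableAt ℂ φ w0 := hφ.differentiableAt (isOpen_ball.mem_nhds hmem)
      refine (hd.congr_of_eventuallyEq ?_).differentiableWithinAt
      filter_upwards [isOpen_ball.mem_nhds hmem] with x hx
      rw [mem_ball_zero_iff] at hx
      exact if_pos hx
    · have hge : R ≤ ‖w0‖ := not_lt.1 hlt
      have hw0' : w0 ≠ 0 := norm_pos_iff.1 (hRpos.trans_le hge)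
      have hb := hpb w0 hge hw0
      have hd : DifferentiableAt ℂ (f (p w0)) w0 :=
        (hf (p w0) (hpn w0 hw0')).1.differentiableAt (isOpen_ball.mem_nhds hb)
      refine (hd.congr_of_eventuallyEq ?_).differentiableWithinAt
      have hopen : ball (p w0) r0 ∩ ball (0 : ℂ) (R0 + r0) ∈ 𝓝 w0 :=
        (isOpen_ball.inter isOpen_ball).mem_nhds ⟨hb, mem_ball_zero_iff.2 hw0⟩
      filter_upwards [hopen] with x hx
      by_cases hx1 : ‖x‖ < R
      · rw [if_pos hx1]
        exact (hfφ (p w0) (hpn w0 hw0') ⟨hx.1, mem_ball_zero_iff.2 hx1⟩).symm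
      · rw [if_neg hx1]
        have hge' : R ≤ ‖x‖ := not_lt.1 hx1
        have hx0 : x ≠ 0 := norm_pos_iff.1 (hRpos.trans_le hge')
        exact hff (p x) (p w0) (hpn x hx0) (hpn w0 hw0')
          ⟨hpb x hge' (mem_ball_zero_iff.1 hx.2), hx.1⟩
  · intro w hw
    exact if_pos (mem_ball_zero_iff.1 hw)

end Pool.Agent.Y903.SC
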